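import Pool.Agent.H13.CMS.Defs
import Pool.Agent.H13.CMS.Conv

/-!
# Self-affine carpets carry a measure with sharp upper doubling exponent
-/

set_option autoImplicit false

open MeasureTheory Pool.MP_a82451_an

namespace Pool.Agent.Results.MP_a82451_an.SharpUpper

/-- Every self-affine carpet `F` is the support of a finite Borel measure satisfying the condition
(U_s) with `s` equal to the Assouad dimension of `F`. -/
theorem result (F : Set ℂ) (hF : IsSelfAffineCarpet F) :
    ∃ μ : Measure ℂ, IsFiniteMeasure μ ∧ μ.support = F ∧ μ Fᶜ = 0 ∧
      UpperCond F (assouadDim F) μ :=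
  Conv.upper F hF

end Pool.Agent.Results.MP_a82451_an.SharpUpper
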